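import Pool.Agent.Helper75.PZ.GoalsB

/-!
# Project PZ: the 2-adic integers
-/

namespace Pool.Agent.Helper16.PZ

open Finset Filter Topology Pool.Agent.Helper75.PZ

theorem pad : P_PAD := by
  constructor
  · intro u v huv
    have hd : 0 < dist u v := dist_pos.2 huv
    obtain ⟨k, hk⟩ := exists_pow_lt_of_lt_one hd (by norm_num : (1 / 2 : ℝ) < 1)
    have hn : ‖(2 : ℤ_[2]) ^ k‖ = (1 / 2 : ℝ) ^ k := by
      have h := PadicInt.norm_p_pow (p := 2) k
      push_cast at h
      rw [h, zpow_neg, zpow_natCast, one_div, inv_pow]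
    have h0 : (0 : ℝ) < (1 / 2 : ℝ) ^ k := by positivity
    have hz : (2 : ℤ_[2]) ^ k ≠ 0 := by
      intro h
      rw [h, norm_zero] at hn
      linarith
    have h1 : dist u (u + 2 ^ k) = (1 / 2 : ℝ) ^ k := by
      rw [dist_eq_norm, ← hn, ← norm_neg ((2 : ℤ_[2]) ^ k)]
      congr 1
      ring
    have h2 : dist v (u + 2 ^ k) = dist u v := by
      rw [dist_comm u v, dist_eq_norm v, dist_eq_norm v]
      have h3 : v - (u + 2 ^ k) = (v - u) + -(2 ^ k) := by ring
      have h4 : ‖v - u‖ = dist u v := by rw [dist_comm, dist_eq_norm]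
      have h5 : ‖v - u‖ ≠ ‖-(2 : ℤ_[2]) ^ k‖ := by
        rw [norm_neg, hn, h4]
        exact hk.ne'
      rw [h3, PadicInt.norm_add_eq_max_of_ne h5, norm_neg, hn, h4]
      exact max_eq_left hk.le
    refine ⟨u + 2 ^ k, ?_, ?_, ?_⟩
    · intro h
      exact hz (add_eq_left.1 h)
    · intro h
      rw [h, dist_self] at h2
      exact hd.ne h2
    · unfold gp
      rw [h1, h2, min_eq_left hk.le]
      linarith
  · intro γ hγ
    have h1 : IsPreconnected (γ '' Set.Icc 0 1) := isPreconnected_Icc.image γ hγ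
    have h2 := h1.subsingleton
    exact h2 ⟨0, by simp, rfl⟩ ⟨1, by simp, rfl⟩

end Pool.Agent.Helper16.PZ
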